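import Mathlib

set_option autoImplicit false

namespace Pool.Agent.Results.MP_25d917_an.Bound

open Matrix

section Aux

lemma chain {E : Type*} [NormedAddCommGroup E] [NormedSpace ℂ E] [FiniteDimensional ℂ E]
    (N : E →ₗ[ℂ] E) (s : ℂ) (L : ℝ) (hL : 0 < L) (hs : ‖s‖ = L)
    (hS : ∀ x, L * ‖x‖ ≤ 2 * ‖s • x - N x‖) (l : List ℂ) (hl : ∀ μ ∈ l, L ≤ ‖μ‖) :
    ∀ x, (l.map fun μ => N - μ • (1 : E →ₗ[ℂ] E)).prod x = 0 →
      L * ‖x‖ ≤ (5 ^ l.length - 1) * ‖N x‖ := by
  have inj : Function.Injective (s • (1 : E →ₗ[ℂ] E) - N) := by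
    rw [← LinearMap.ker_eq_bot, LinearMap.ker_eq_bot']
    intro x hx
    have := hS x
    have e : s • x - N x = 0 := by simpa using hx
    rw [e, norm_zero] at this
    have h0 : ‖x‖ ≤ 0 := by nlinarith [norm_nonneg x]
    exact norm_le_zero_iff.1 h0
  induction l with
  | nil => intro x hx; simp at hx; simp [hx]
  | cons μ l ih =>
    intro x hx
    obtain ⟨z, hz⟩ := LinearMap.injective_iff_surjective.1 inj x
    have cm : ∀ c : ℂ, Commute (N - c • (1 : E →ₗ[ℂ] E))
        (l.map fun μ => N - μ • (1 : E →ₗ[ℂ] E)).prod := fun c => by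
      refine Commute.list_prod_right _ _ fun y hy => ?_
      obtain ⟨d, -, rfl⟩ := List.mem_map.1 hy
      exact ((Commute.refl N).sub_right ((Commute.one_right N).smul_right d)).sub_left
        ((Commute.one_left _).smul_left c)
    have hz' : s • z - N z = x := by simpa using hz
    have k : (l.map fun μ => N - μ • (1 : E →ₗ[ℂ] E)).prod (N z - μ • z) = 0 := by
      apply inj
      rw [List.map_cons, List.prod_cons, (cm μ).eq, Module.End.mul_apply] at hx
      have a := LinearMap.congr_fun (cm s).eq (N z - μ • z)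
      simp only [Module.End.mul_apply] at a
      rw [map_zero, ← neg_sub, LinearMap.neg_apply, a, ← map_neg, ← hx, ← hz']
      congr 1
      simp only [LinearMap.sub_apply, LinearMap.smul_apply, Module.End.one_apply, map_sub, map_smul]
      module
    have a := ih (fun ν h => hl ν (List.mem_cons_of_mem _ h)) _ k
    have hμ := hl μ List.mem_cons_self
    have b := hS (N z)
    have e1 : s • N z - N (N z) = N x := by rw [← hz', map_sub, map_smul]
    have e2 : N (N z - μ • z) = (s - μ) • N z - N x := by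
      rw [← e1, map_sub, map_smul]; module
    have e3 : μ • x = (s - μ) • N z - s • (N z - μ • z) := by rw [← hz']; module
    have c1 : ‖s - μ‖ ≤ 2 * ‖μ‖ := (norm_sub_le _ _).trans (by linarith)
    have c2 : ‖(s - μ) • N z‖ ≤ 2 * ‖μ‖ * ‖N z‖ := by
      rw [norm_smul]; exact mul_le_mul_of_nonneg_right c1 (norm_nonneg _)
    have c3 : ‖μ‖ * ‖x‖ ≤ 2 * ‖μ‖ * ‖N z‖ + L * ‖N z - μ • z‖ := by
      rw [← norm_smul, e3, ← hs, ← norm_smul s]
      exact (norm_sub_le _ _).trans (by linarith)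
    have c4 : ‖N (N z - μ • z)‖ ≤ 2 * ‖μ‖ * ‖N z‖ + ‖N x‖ := by
      rw [e2]; exact (norm_sub_le _ _).trans (by linarith)
    rw [e1] at b
    obtain ⟨c, hc⟩ : ∃ c : ℝ, c = 5 ^ l.length - 1 := ⟨_, rfl⟩
    have c0 : 0 ≤ c := by rw [hc, sub_nonneg]; exact one_le_pow₀ (by norm_num)
    have ec : (5 : ℝ) ^ (μ :: l).length - 1 = 5 * c + 4 := by
      rw [hc, List.length_cons, pow_succ]; ring
    rw [ec]
    rw [← hc] at a
    have c5 := mul_le_mul_of_nonneg_left c4 c0
    have hμ0 : 0 < ‖μ‖ := by linarith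
    refine le_of_mul_le_mul_left ?_ hμ0
    have c6 : ‖μ‖ * ‖x‖ ≤ (c + 1) * (2 * ‖μ‖) * ‖N z‖ + c * ‖N x‖ := by nlinarith
    have c7 := mul_le_mul_of_nonneg_left c6 hL.le
    have c8 := mul_le_mul_of_nonneg_left b (show 0 ≤ (c + 1) * (2 * ‖μ‖) by positivity)
    have c9 := mul_le_mul_of_nonneg_left hμ (show 0 ≤ c * ‖N x‖ by positivity)
    nlinarith

lemma sq_id {n k : ℕ} (P : Matrix (Fin k) (Fin n) ℂ) (x : EuclideanSpace ℂ (Fin n)) :
    ‖toEuclideanLin P x‖ ^ 2 = (inner ℂ x (toEuclideanLin (Pᴴ * P) x)).re := by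
  rw [toEuclideanLin, toLpLin_mul_same, LinearMap.comp_apply]
  rw [show toLpLin 2 2 Pᴴ = toEuclideanLin Pᴴ from rfl, toEuclideanLin_conjTranspose_eq_adjoint,
    LinearMap.adjoint_inner_right]
  exact (inner_self_eq_norm_sq (𝕜 := ℂ) _).symm

lemma pow_le_pow_left_iff_aux {a b : ℝ} (hb : 0 ≤ b) (h : a ^ 2 ≤ b ^ 2) : a ≤ b :=
  (abs_le_of_sq_le_sq' h hb).2

lemma roots_list {E : Type*} [AddCommGroup E] [Module ℂ E] [FiniteDimensional ℂ E]
    (N : E →ₗ[ℂ] E) : ∃ l : List ℂ, l.length ≤ Module.finrank ℂ E ∧ (∀ μ ∈ l, μ ∈ spectrum ℂ N) ∧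
      (l.map fun μ => N - μ • (1 : E →ₗ[ℂ] E)).prod = 0 := by
  refine ⟨N.charpoly.roots.toList, ?_, fun μ h => ?_, ?_⟩
  · rw [Multiset.length_toList, ← N.charpoly_natDegree]
    exact Polynomial.card_roots' _
  · rw [← Module.End.hasEigenvalue_iff_mem_spectrum, Module.End.hasEigenvalue_iff_isRoot_charpoly]
    exact Polynomial.isRoot_of_mem_roots (Multiset.mem_toList.1 h)
  · have a := N.aeval_self_charpoly
    rw [(IsAlgClosed.splits N.charpoly).eq_prod_roots_of_monic N.charpoly_monic,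
      ← Multiset.coe_toList N.charpoly.roots, Multiset.map_coe, Multiset.prod_coe, map_list_prod,
      List.map_map] at a
    rw [← a]
    congr 2
    funext μ
    simp [Algebra.algebraMap_eq_smul_one]

end Aux

open scoped ComplexOrder in
/-- For `m < n` and skew-Hermitian `A` the decay rate of the optimal closed loop is bounded by a
constant that does not depend on `B`. -/
theorem result (n m : ℕ) (hmn : m < n) (A : Matrix (Fin n) (Fin n) ℂ) (hA : Aᴴ = -A) :
    ∃ C : ℝ, ∀ (B : Matrix (Fin n) (Fin m) ℂ) (X : Matrix (Fin n) (Fin n) ℂ), X.PosDef →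
      Aᴴ * X + X * A - X * B * Bᴴ * X + 1 = 0 →
      ∃ μ ∈ spectrum ℂ (A - B * Bᴴ * X), -μ.re ≤ C := by
  obtain ⟨a, a0, ha⟩ : ∃ a : ℝ, 0 ≤ a ∧ ∀ x, ‖toEuclideanLin A x‖ ≤ a * ‖x‖ :=
    ⟨_, norm_nonneg _, (LinearMap.toContinuousLinearMap (toEuclideanLin A)).le_opNorm⟩
  obtain ⟨L, hL⟩ : ∃ L : ℝ, L = (5 ^ n + 2) * (a + 1) := ⟨_, rfl⟩
  have p5 : (0 : ℝ) < 5 ^ n := by positivity
  have L0 : 0 < L := by rw [hL]; positivity
  refine ⟨L, fun B X hX hR => ?_⟩
  by_contra hc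
  push Not at hc
  have hu := hX.isUnit
  obtain ⟨Y, hY⟩ : ∃ Y, Y = X⁻¹ := ⟨_, rfl⟩
  have hd := (isUnit_iff_isUnit_det X).1 hu
  have XY : X * Y = 1 := hY ▸ mul_nonsing_inv X hd
  have YX : Y * X = 1 := hY ▸ nonsing_inv_mul X hd
  have hYh : Yᴴ = Y := by rw [hY, conjTranspose_nonsing_inv, hX.1.eq]
  have hM : B * Bᴴ = A * Y - Y * A + Y * Y := by
    have e : Y * (Aᴴ * X + X * A - X * B * Bᴴ * X + 1) * Y
        = -(Y * A) * (X * Y) + (Y * X) * (A * Y) - (Y * X) * (B * Bᴴ) * (X * Y) + Y * Y := by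
      rw [hA, Matrix.mul_assoc X B]; noncomm_ring
    rw [hR, XY, YX] at e
    simp only [mul_zero, zero_mul, mul_one, one_mul] at e
    rw [← sub_eq_zero, ← neg_eq_zero, e]
    abel
  have sp : spectrum ℂ (toEuclideanLin (A - Y)) = spectrum ℂ (A - B * Bᴴ * X) := by
    have e : A - Y = X * (A - B * Bᴴ * X) * Y := by
      rw [hM]
      have : X * (A - (A * Y - Y * A + Y * Y) * X) * Y
        = X * A * Y - X * A * Y * (X * Y) + X * Y * A * (X * Y) - X * Y * Y * (X * Y) := by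
        noncomm_ring
      rw [this, XY]
      simp
    have e2 := spectrum.units_conjugate (R := ℂ) (a := A - B * Bᴴ * X) (u := ⟨X, Y, XY, YX⟩)
    rw [← e2]
    exact (AlgEquiv.spectrum_eq (toLpLinAlgEquiv 2) (A - Y)).trans (congrArg _ e)
  obtain ⟨l, l1, l2, l3⟩ := roots_list (toEuclideanLin (A - Y))
  obtain ⟨v, hv, v0⟩ : ∃ v, toEuclideanLin Bᴴ v = 0 ∧ v ≠ 0 := by
    have := LinearMap.ker_ne_bot_of_finrank_lt (f := toEuclideanLin Bᴴ) (by simpa using hmn)
    simpa using (Submodule.ne_bot_iff _).1 this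
  have key : ∀ (w : ℝ) x, ‖((w : ℂ) * Complex.I) • x - toEuclideanLin (A - Y) x‖ ^ 2
      = ‖((w : ℂ) * Complex.I) • x - toEuclideanLin A x‖ ^ 2 + ‖toEuclideanLin Bᴴ x‖ ^ 2 := by
    intro w x
    have e : ∀ P : Matrix (Fin n) (Fin n) ℂ, ((w : ℂ) * Complex.I) • x - toEuclideanLin P x
        = toEuclideanLin (((w : ℂ) * Complex.I) • (1 : Matrix (Fin n) (Fin n) ℂ) - P) x := by
      intro P
      simp [toEuclideanLin, toLpLin_one]
    rw [e, e, sq_id, sq_id, sq_id, ← Complex.add_re, ← inner_add_right, ← LinearMap.add_apply,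
      ← map_add]
    congr 4
    rw [conjTranspose_conjTranspose, hM]
    simp only [conjTranspose_sub, conjTranspose_smul, conjTranspose_one, hA, hYh]
    have : star ((w : ℂ) * Complex.I) = -((w : ℂ) * Complex.I) := by simp
    rw [this]
    simp only [mul_sub, sub_mul, smul_mul_assoc, mul_smul_comm, one_mul, mul_one, neg_mul]
    module
  have h1 := chain (toEuclideanLin (A - Y)) ((L : ℂ) * Complex.I) L L0 (by simp [L0.le])
    (fun x => by
      have b := norm_sub_norm_le (((L : ℂ) * Complex.I) • x) (toEuclideanLin A x)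
      rw [norm_smul, show ‖(L : ℂ) * Complex.I‖ = L by simp [L0.le]] at b
      have c : ‖((L : ℂ) * Complex.I) • x - toEuclideanLin A x‖
          ≤ ‖((L : ℂ) * Complex.I) • x - toEuclideanLin (A - Y) x‖ :=
        pow_le_pow_left_iff_aux (norm_nonneg _) (by rw [key]; nlinarith)
      have d := mul_le_mul_of_nonneg_right (show 2 * a ≤ L by nlinarith) (norm_nonneg x)
      linarith [ha x]) l
    (fun μ h => (hc μ (sp ▸ l2 μ h)).le.trans ((neg_le_abs _).trans (Complex.abs_re_le_norm μ)))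
    v (by rw [l3]; rfl)
  have h2 := key 0 v
  simp only [hv, Complex.ofReal_zero, zero_mul, zero_smul, zero_sub, norm_neg, norm_zero] at h2
  have h3 : ‖toEuclideanLin (A - Y) v‖ ≤ a * ‖v‖ :=
    (pow_le_pow_left_iff_aux (norm_nonneg _) (by rw [h2]; simp)).trans (ha v)
  have h4 : (5 : ℝ) ^ l.length ≤ 5 ^ n := pow_le_pow_right₀ (by norm_num) (by simpa using l1)
  have h5 := norm_pos_iff.2 v0
  have h6 := mul_le_mul (show (5 : ℝ) ^ l.length - 1 ≤ 5 ^ n by linarith) h3 (norm_nonneg _) p5.le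
  have h7 := mul_lt_mul_of_pos_right (show 5 ^ n * a < L by nlinarith) h5
  nlinarith

end Pool.Agent.Results.MP_25d917_an.Bound
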